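import Pool.Agent.helper60.MW.Spec

/-!
# Row mw:MFL (the set of useless motions is measurable)
-/

set_option autoImplicit false

namespace Pool.Agent.MW

open MeasureTheory Set Pool.Agent.helper17.Worm

/-- the occupied area of a square depends measurably on the motion -/
theorem MFL_occ {X : Set ℂ} (hX : MeasurableSet X) (p : ℂ) (a : ℝ) :
    Measurable (fun g : ℝ × ℂ => occ X g (sq p a)) :=
  (measurable_occ hX (measurableSet_rc p.re a p.im a)).ennreal_toReal

/-- the number of bad nodes depends measurably on the motion -/
theorem MFL_nbad {ι : Type} [Fintype ι] {X : Set ℂ} (hX : MeasurableSet X) (p : ι → ℂ) (a s : ℝ) :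
    Measurable (fun g : ℝ × ℂ => nbad X g p a s) := by
  classical
  have h : (fun g : ℝ × ℂ => nbad X g p a s)
      = fun g => ∑ i, if occ X g (sq (p i) a) ≤ s * a ^ 2 then 1 else 0 := by
    funext g
    rw [Finset.sum_boole]
    unfold nbad
    simp
  rw [h]
  refine Finset.measurable_sum _ fun i _ => ?_
  exact Measurable.ite (measurableSet_le (MFL_occ hX (p i) a) measurable_const)
    measurable_const measurable_const

/-- ROW mw:MFL -/
theorem MFL : MFL_stmt := by
  intro ι _ X hX k q B p a b s t S
  have h1 : MeasurableSet {g : ℝ × ℂ | B ≤ nbad X g p a s} :=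
    measurableSet_le measurable_const (MFL_nbad hX p a s)
  have h2 : MeasurableSet {g : ℝ × ℂ | Full X g p b t S} := by
    have h3 : {g : ℝ × ℂ | Full X g p b t S}
        = ⋂ e : ι × Fin k, {g : ℝ × ℂ | t * b ^ 2 < occ X g (sq (sub (p e.1) b (S e).1 (S e).2) b)} := by
      ext g
      simp [Full]
    rw [h3]
    exact MeasurableSet.iInter fun e => measurableSet_lt measurable_const (MFL_occ hX _ b)
  exact h1.inter h2

end Pool.Agent.MW
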